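import Pool.Agent.LPW.StmtsS

set_option autoImplicit false

namespace Pool.Agent.LPW.H79

theorem enu : EnuStmt := by
  intro d
  let T : Finset (Sigma fun _ : ℕ => ℕ × ℕ) :=
    (Finset.range (d + 1)).sigma (fun c => Finset.HasAntidiagonal.antidiagonal c)
  have hT : T.card = Ld d := by
    rw [Finset.card_sigma]
    unfold Ld
    apply Finset.sum_congr rfl
    intro c _
    exact Finset.Nat.card_antidiagonal c
  let eq : Fin (Ld d) ≃ T := (Finset.equivFinOfCardEq hT).symm
  have hmem : ∀ x : T, x.1.2.1 + x.1.2.2 = x.1.1 ∧ x.1.1 ≤ d := by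
    intro x
    have h1 := x.2
    rw [Finset.mem_sigma, Finset.mem_range, Finset.HasAntidiagonal.mem_antidiagonal] at h1
    exact ⟨h1.2, by omega⟩
  refine ⟨fun a => ![(eq a).1.2.1, (eq a).1.2.2], ?_, ?_, ?_⟩
  · intro a b hab
    have h0 : (eq a).1.2.1 = (eq b).1.2.1 := congrFun hab 0
    have h1 : (eq a).1.2.2 = (eq b).1.2.2 := congrFun hab 1
    apply eq.injective
    apply Subtype.ext
    have h2 := (hmem (eq a)).1
    have h3 := (hmem (eq b)).1
    have h4 : (eq a).1.1 = (eq b).1.1 := by omega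
    have h5 : (eq a).1.2 = (eq b).1.2 := Prod.ext h0 h1
    exact Sigma.ext h4 (heq_of_eq h5)
  · intro a
    show (eq a).1.2.1 + (eq a).1.2.2 ≤ d
    have h2 := hmem (eq a)
    omega
  · show ∑ a, ((eq a).1.2.1 + (eq a).1.2.2) = Sd d
    rw [Equiv.sum_comp eq (fun x : T => x.1.2.1 + x.1.2.2)]
    rw [Finset.sum_coe_sort T (fun x : Sigma fun _ : ℕ => ℕ × ℕ => x.2.1 + x.2.2)]
    rw [Finset.sum_sigma]
    unfold Sd
    apply Finset.sum_congr rfl
    intro c _
    have h1 : ∀ p ∈ Finset.HasAntidiagonal.antidiagonal c, p.1 + p.2 = c := by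
      intro p hp
      exact Finset.HasAntidiagonal.mem_antidiagonal.1 hp
    rw [Finset.sum_congr rfl h1, Finset.sum_const, Finset.Nat.card_antidiagonal, smul_eq_mul,
      mul_comm]

end Pool.Agent.LPW.H79
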