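import Pool.Agent.LPW.StmtsD

set_option autoImplicit false

open Polynomial

namespace Pool.Agent.LPW.H79

theorem prod_gt (ρ : ℂ) (s : Multiset ℂ) (h : ∀ z ∈ s, 1 < ‖ρ - z‖) :
    1 ≤ (s.map fun z => ‖ρ - z‖).prod ∧ (s ≠ 0 → 1 < (s.map fun z => ‖ρ - z‖).prod) := by
  induction s using Multiset.induction_on with
  | empty =>
    refine ⟨?_, fun h => absurd rfl h⟩
    rw [Multiset.map_zero, Multiset.prod_zero]
  | cons a s ih =>
    have h1 := (ih (fun z hz => h z (Multiset.mem_cons_of_mem hz))).1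
    have h2 := h a (Multiset.mem_cons_self a s)
    rw [Multiset.map_cons, Multiset.prod_cons]
    have h3 : 1 < ‖ρ - a‖ * (s.map fun z => ‖ρ - z‖).prod := by nlinarith
    exact ⟨h3.le, fun _ => h3⟩

theorem nrt : NrtStmt := by
  intro F ρ hm hd hF
  by_contra hne
  have h1 : ∀ z ∈ F.roots, 1 < ‖ρ - z‖ := by
    intro z hz
    by_contra h
    apply hne
    refine ⟨z, ?_, ?_⟩
    · exact (Polynomial.mem_roots'.1 hz).2
    · rw [norm_sub_rev]
      exact not_lt.1 h
  have hs := IsAlgClosed.splits F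
  have h2 : F = (F.roots.map fun a => X - C a).prod := hs.eq_prod_roots_of_monic hm
  have h3 : F.roots ≠ 0 := by
    intro h0
    rw [h0, Multiset.map_zero, Multiset.prod_zero] at h2
    rw [h2, natDegree_one] at hd
    exact lt_irrefl _ hd
  have h4 : ‖F.eval ρ‖ = (F.roots.map fun z => ‖ρ - z‖).prod := by
    conv_lhs => rw [h2]
    rw [eval_multiset_prod, Multiset.map_map]
    have h5 : (F.roots.map (eval ρ ∘ fun a => X - C a)) = F.roots.map (fun z => ρ - z) := by
      apply Multiset.map_congr rfl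
      intro z _
      simp
    rw [h5]
    have h6 := map_multiset_prod (normHom : ℂ →*₀ ℝ) (F.roots.map fun z => ρ - z)
    rw [Multiset.map_map] at h6
    exact h6
  have h7 := (prod_gt ρ F.roots h1).2 h3
  rw [← h4] at h7
  exact absurd hF (not_le.2 h7)

end Pool.Agent.LPW.H79
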